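import Mathlib

/-!
# Couplings of quantum states and the De Palma–Trevisan cost: basic identities
-/

set_option autoImplicit false

open Matrix
open scoped Kronecker BigOperators ComplexOrder

namespace Pool.Agent.X244.DP

variable {d : ℕ}

/-- marginal on the first factor -/
def marg₁ (R : Matrix (Fin d × Fin d) (Fin d × Fin d) ℂ) : Matrix (Fin d) (Fin d) ℂ :=
  Matrix.of fun i j => ∑ k, R (i, k) (j, k)

/-- marginal on the second factor -/
def marg₂ (R : Matrix (Fin d × Fin d) (Fin d × Fin d) ℂ) : Matrix (Fin d) (Fin d) ℂ :=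
  Matrix.of fun i j => ∑ k, R (k, i) (k, j)

theorem trace_m1 (R : Matrix (Fin d × Fin d) (Fin d × Fin d) ℂ) (A : Matrix (Fin d) (Fin d) ℂ) :
    trace (R * (A ⊗ₖ (1 : Matrix (Fin d) (Fin d) ℂ))) = trace (marg₁ R * A) := by
  simp only [trace, diag_apply, mul_apply, kroneckerMap_apply, one_apply, Fintype.sum_prod_type,
    marg₁, of_apply, mul_ite, mul_one, mul_zero, Finset.sum_ite_eq', Finset.mem_univ, if_true,
    Finset.sum_ite_eq]
  refine Finset.sum_congr rfl fun i _ => ?_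
  rw [Finset.sum_comm]
  refine Finset.sum_congr rfl fun j _ => ?_
  rw [Finset.sum_mul]

theorem trace_m2 (R : Matrix (Fin d × Fin d) (Fin d × Fin d) ℂ) (A : Matrix (Fin d) (Fin d) ℂ) :
    trace (R * ((1 : Matrix (Fin d) (Fin d) ℂ) ⊗ₖ A)) = trace (marg₂ R * A) := by
  simp only [trace, diag_apply, mul_apply, kroneckerMap_apply, one_apply, Fintype.sum_prod_type,
    marg₂, of_apply, ite_mul, one_mul, zero_mul, mul_ite, mul_zero]
  rw [Finset.sum_comm]
  refine Finset.sum_congr rfl fun i _ => ?_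
  have : ∀ x : Fin d, (∑ x_1 : Fin d, ∑ x_2 : Fin d,
      if x_1 = x then R (x, i) (x_1, x_2) * A x_2 i else 0)
      = ∑ x_2 : Fin d, R (x, i) (x, x_2) * A x_2 i := by
    intro x
    rw [Finset.sum_eq_single x]
    · simp
    · intro b _ hb
      simp [hb]
    · simp
  rw [Finset.sum_congr rfl fun x _ => this x, Finset.sum_comm]
  refine Finset.sum_congr rfl fun j _ => ?_
  rw [Finset.sum_mul]

theorem expand (A B : Matrix (Fin d) (Fin d) ℂ) :
    (A ⊗ₖ (1 : Matrix (Fin d) (Fin d) ℂ) - (1 : Matrix (Fin d) (Fin d) ℂ) ⊗ₖ B) ^ 2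
      = (A * A) ⊗ₖ (1 : Matrix (Fin d) (Fin d) ℂ) - (2 : ℂ) • (A ⊗ₖ B)
        + (1 : Matrix (Fin d) (Fin d) ℂ) ⊗ₖ (B * B) := by
  rw [sq, sub_mul, mul_sub, mul_sub, ← mul_kronecker_mul, ← mul_kronecker_mul, ← mul_kronecker_mul,
    ← mul_kronecker_mul, two_smul]
  simp only [mul_one, one_mul]
  abel

/-- A positive semidefinite matrix with `tr (R S) = 0` for a Hermitian idempotent `S` satisfies
`R S = 0`. -/
theorem mul_eq_zero_of_trace {n : Type*} [Fintype n] [DecidableEq n] (R S : Matrix n n ℂ)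
    (hR : R.PosSemidef) (hS : Sᴴ = S) (hS2 : S * S = S) (h : trace (R * S) = 0) : R * S = 0 := by
  obtain ⟨m, v, hv⟩ := Matrix.posSemidef_iff_eq_sum_vecMulVec.1 hR
  set C : Matrix (Fin m) n ℂ := Matrix.of fun i p => star (v i p) with hCdef
  have hC : R = Cᴴ * C := by
    rw [hv]
    ext p q
    rw [Matrix.sum_apply, mul_apply]
    refine Finset.sum_congr rfl fun i _ => ?_
    simp [hCdef, vecMulVec_apply]
  have h1 : ((C * S)ᴴ * (C * S)).PosSemidef := posSemidef_conjTranspose_mul_self _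
  have e : (C * S)ᴴ * (C * S) = S * R * S := by
    rw [conjTranspose_mul, hS, hC]
    simp only [Matrix.mul_assoc]
  have h2 : trace ((C * S)ᴴ * (C * S)) = 0 := by
    rw [e, trace_mul_comm, ← Matrix.mul_assoc, hS2, trace_mul_comm]
    exact h
  have h3 : (C * S)ᴴ * (C * S) = 0 := h1.trace_eq_zero_iff.1 h2
  have h4 : C * S = 0 := conjTranspose_mul_self_eq_zero.1 h3
  rw [hC, Matrix.mul_assoc, h4, Matrix.mul_zero]

/-- the rank one projection -/
def proj (v : Fin d → ℂ) : Matrix (Fin d) (Fin d) ℂ := vecMulVec v (star v)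

theorem proj_apply (v : Fin d → ℂ) (i j : Fin d) : proj v i j = v i * star (v j) := rfl

theorem proj_posSemidef (v : Fin d → ℂ) : (proj v).PosSemidef := posSemidef_vecMulVec_self_star v

theorem proj_sandwich (v : Fin d → ℂ) (A : Matrix (Fin d) (Fin d) ℂ) :
    proj v * A * proj v = trace (proj v * A) • proj v := by
  ext i j
  simp only [mul_apply, proj_apply, Matrix.smul_apply, smul_eq_mul, trace, diag_apply,
    Finset.sum_mul]
  refine Finset.sum_congr rfl fun x _ => ?_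
  refine Finset.sum_congr rfl fun y _ => ?_
  ring

theorem proj_trace (v : Fin d → ℂ) : trace (proj v) = star v ⬝ᵥ v := by
  simp only [trace, diag_apply, proj_apply, dotProduct, Pi.star_apply]
  exact Finset.sum_congr rfl fun i _ => mul_comm _ _

theorem proj_idem (v : Fin d → ℂ) (hv : star v ⬝ᵥ v = 1) : proj v * proj v = proj v := by
  have := proj_sandwich v 1
  rw [Matrix.mul_one, proj_trace, hv, one_smul] at this
  exact this

/-- **A coupling of a pure state factorises.** -/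
theorem factor (R : Matrix (Fin d × Fin d) (Fin d × Fin d) ℂ) (hR : R.PosSemidef)
    (u : Fin d → ℂ) (hu : star u ⬝ᵥ u = 1) (hm : marg₁ R = proj u)
    (A B : Matrix (Fin d) (Fin d) ℂ) :
    trace (R * (A ⊗ₖ B)) = trace (proj u * A) * trace (marg₂ R * B) := by
  have hP : (proj u)ᴴ = proj u := (proj_posSemidef u).isHermitian
  have hP2 := proj_idem u hu
  set Q : Matrix (Fin d) (Fin d) ℂ := 1 - proj u with hQ
  have hQH : Qᴴ = Q := by rw [hQ, conjTranspose_sub, conjTranspose_one, hP]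
  have hQ2 : Q * Q = Q := by
    rw [hQ, sub_mul, mul_sub, mul_sub, hP2]
    simp
  have hRS : R * (Q ⊗ₖ (1 : Matrix (Fin d) (Fin d) ℂ)) = 0 := by
    refine mul_eq_zero_of_trace R _ hR ?_ ?_ ?_
    · rw [conjTranspose_kronecker, hQH, conjTranspose_one]
    · rw [← mul_kronecker_mul, hQ2, one_mul]
    · rw [trace_m1, hm, hQ, mul_sub, hP2, Matrix.mul_one, sub_self, trace_zero]
  have h1 : R * (proj u ⊗ₖ (1 : Matrix (Fin d) (Fin d) ℂ)) = R := by
    have : (Q ⊗ₖ (1 : Matrix (Fin d) (Fin d) ℂ)) = 1 - proj u ⊗ₖ (1 : Matrix (Fin d) (Fin d) ℂ) := by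
      rw [hQ]
      ext ⟨a, b⟩ ⟨c, e⟩
      simp only [kroneckerMap_apply, Matrix.sub_apply, one_apply, Prod.mk.injEq]
      by_cases h1 : a = c <;> by_cases h2 : b = e <;> simp [h1, h2]
    rw [this, mul_sub, Matrix.mul_one, sub_eq_zero] at hRS
    exact hRS.symm
  have h2 : (proj u ⊗ₖ (1 : Matrix (Fin d) (Fin d) ℂ)) * R = R := by
    have := congrArg conjTranspose h1
    rw [conjTranspose_mul, conjTranspose_kronecker, hP, conjTranspose_one,
      hR.isHermitian.eq] at this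
    exact this
  calc trace (R * (A ⊗ₖ B))
      = trace (((proj u ⊗ₖ (1 : Matrix (Fin d) (Fin d) ℂ)) * R) * (A ⊗ₖ B)) := by rw [h2]
    _ = trace (R * ((A ⊗ₖ B) * (proj u ⊗ₖ (1 : Matrix (Fin d) (Fin d) ℂ)))) := by
        rw [Matrix.mul_assoc, trace_mul_comm, Matrix.mul_assoc]
    _ = trace ((R * (proj u ⊗ₖ (1 : Matrix (Fin d) (Fin d) ℂ))) *
          ((A ⊗ₖ B) * (proj u ⊗ₖ (1 : Matrix (Fin d) (Fin d) ℂ)))) := by rw [h1]
    _ = trace (R * ((proj u * A * proj u) ⊗ₖ B)) := by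
        rw [Matrix.mul_assoc, ← Matrix.mul_assoc (proj u ⊗ₖ (1 : Matrix (Fin d) (Fin d) ℂ)),
          ← mul_kronecker_mul, ← mul_kronecker_mul, Matrix.one_mul, Matrix.mul_one]
    _ = trace (proj u * A) * trace (R * (proj u ⊗ₖ B)) := by
        rw [proj_sandwich, smul_kronecker, Matrix.mul_smul, trace_smul, smul_eq_mul]
    _ = trace (proj u * A) * trace (R * ((1 : Matrix (Fin d) (Fin d) ℂ) ⊗ₖ B)) := by
        have : proj u ⊗ₖ B = (proj u ⊗ₖ (1 : Matrix (Fin d) (Fin d) ℂ)) *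
            ((1 : Matrix (Fin d) (Fin d) ℂ) ⊗ₖ B) := by
          rw [← mul_kronecker_mul, Matrix.mul_one, Matrix.one_mul]
        rw [this, ← Matrix.mul_assoc, h1]
    _ = trace (proj u * A) * trace (marg₂ R * B) := by rw [trace_m2]

end Pool.Agent.X244.DP
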