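import Pool.Agent.X244.DP.A

/-!
# The De Palma–Trevisan cost, its separable version, and their modified versions
-/

set_option autoImplicit false

open Matrix
open scoped Kronecker BigOperators ComplexOrder

namespace Pool.Agent.X244.DP

variable {d N : ℕ}

/-- density matrix -/
def IsState {n : Type} [Fintype n] (R : Matrix n n ℂ) : Prop := R.PosSemidef ∧ trace R = 1

/-- `R` is a coupling of `ρ` and `σ`: a state with marginal `ρᵀ` on the first factor and `σ` on the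
second. -/
def IsCoupling (ρ σ : Matrix (Fin d) (Fin d) ℂ)
    (R : Matrix (Fin d × Fin d) (Fin d × Fin d) ℂ) : Prop :=
  IsState R ∧ marg₁ R = ρᵀ ∧ marg₂ R = σ

/-- `½ ∑_n tr [R (H_nᵀ ⊗ 1 - 1 ⊗ H_n)²]` -/
noncomputable def cost (H : Fin N → Matrix (Fin d) (Fin d) ℂ)
    (R : Matrix (Fin d × Fin d) (Fin d × Fin d) ℂ) : ℝ :=
  (1 / 2) * ∑ n, (trace (R * ((H n)ᵀ ⊗ₖ (1 : Matrix (Fin d) (Fin d) ℂ)
    - (1 : Matrix (Fin d) (Fin d) ℂ) ⊗ₖ H n) ^ 2)).re

/-- `W(ρ, σ)` -/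
noncomputable def W (H : Fin N → Matrix (Fin d) (Fin d) ℂ) (ρ σ : Matrix (Fin d) (Fin d) ℂ) : ℝ :=
  sInf {x | ∃ R, IsCoupling ρ σ R ∧ x = cost H R}

/-- `W̃(ρ, σ)` -/
noncomputable def Wt (H : Fin N → Matrix (Fin d) (Fin d) ℂ) (ρ σ : Matrix (Fin d) (Fin d) ℂ) : ℝ :=
  W H ρ σ - (1 / 2) * (W H ρ ρ + W H σ σ)

/-- `(p, Ψ, Φ)` is a joint decomposition of `ρ` and `σ` into pure states. -/
def IsDecomp (ρ σ : Matrix (Fin d) (Fin d) ℂ) {K : ℕ} (p : Fin K → ℝ)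
    (Ψ Φ : Fin K → Fin d → ℂ) : Prop :=
  (∀ k, 0 < p k) ∧ ∑ k, p k = 1 ∧ (∀ k, star (Ψ k) ⬝ᵥ Ψ k = 1) ∧ (∀ k, star (Φ k) ⬝ᵥ Φ k = 1) ∧
    ∑ k, (p k : ℂ) • proj (Ψ k) = ρ ∧ ∑ k, (p k : ℂ) • proj (Φ k) = σ

/-- `W_sep(ρ, σ)` -/
noncomputable def WSep (H : Fin N → Matrix (Fin d) (Fin d) ℂ)
    (ρ σ : Matrix (Fin d) (Fin d) ℂ) : ℝ :=
  sInf {x | ∃ (K : ℕ) (p : Fin K → ℝ) (Ψ Φ : Fin K → Fin d → ℂ), IsDecomp ρ σ p Ψ Φ ∧
    x = ∑ k, p k * W H (proj (Ψ k)) (proj (Φ k))}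

/-- `W̃_sep(ρ, σ)` -/
noncomputable def WtSep (H : Fin N → Matrix (Fin d) (Fin d) ℂ)
    (ρ σ : Matrix (Fin d) (Fin d) ℂ) : ℝ :=
  WSep H ρ σ - (1 / 2) * (WSep H ρ ρ + WSep H σ σ)

theorem cost_nonneg (H : Fin N → Matrix (Fin d) (Fin d) ℂ) (hH : ∀ n, (H n).IsHermitian)
    (R : Matrix (Fin d × Fin d) (Fin d × Fin d) ℂ) (hR : R.PosSemidef) : 0 ≤ cost H R := by
  unfold cost
  refine mul_nonneg (by norm_num) (Finset.sum_nonneg fun n _ => ?_)
  set A := (H n)ᵀ ⊗ₖ (1 : Matrix (Fin d) (Fin d) ℂ) - (1 : Matrix (Fin d) (Fin d) ℂ) ⊗ₖ H n with hA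
  have hAH : Aᴴ = A := by
    rw [hA, conjTranspose_sub, conjTranspose_kronecker, conjTranspose_kronecker,
      conjTranspose_one, (hH n).eq]
    have : ((H n)ᵀ)ᴴ = (H n)ᵀ := by
      ext i j
      have := congrFun (congrFun (hH n).eq j) i
      simpa [conjTranspose_apply, transpose_apply] using this
    rw [this]
  have h1 : (Aᴴ * R * A).PosSemidef := hR.conjTranspose_mul_mul_same A
  have h2 : trace (R * A ^ 2) = trace (Aᴴ * R * A) := by
    rw [hAH, sq, ← Matrix.mul_assoc, trace_mul_comm, ← Matrix.mul_assoc]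
  rw [h2]
  exact (Complex.le_def.1 h1.trace_nonneg).1

theorem W_bddBelow (H : Fin N → Matrix (Fin d) (Fin d) ℂ) (hH : ∀ n, (H n).IsHermitian)
    (ρ σ : Matrix (Fin d) (Fin d) ℂ) : BddBelow {x | ∃ R, IsCoupling ρ σ R ∧ x = cost H R} := by
  refine ⟨0, ?_⟩
  rintro x ⟨R, hR, rfl⟩
  exact cost_nonneg H hH R hR.1.1

theorem W_nonneg (H : Fin N → Matrix (Fin d) (Fin d) ℂ) (hH : ∀ n, (H n).IsHermitian)
    (ρ σ : Matrix (Fin d) (Fin d) ℂ) : 0 ≤ W H ρ σ := by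
  refine Real.sInf_nonneg ?_
  rintro x ⟨R, hR, rfl⟩
  exact cost_nonneg H hH R hR.1.1

theorem WSep_le (H : Fin N → Matrix (Fin d) (Fin d) ℂ) (hH : ∀ n, (H n).IsHermitian)
    {ρ σ : Matrix (Fin d) (Fin d) ℂ} {K : ℕ} {p : Fin K → ℝ} {Ψ Φ : Fin K → Fin d → ℂ}
    (h : IsDecomp ρ σ p Ψ Φ) :
    WSep H ρ σ ≤ ∑ k, p k * W H (proj (Ψ k)) (proj (Φ k)) := by
  refine csInf_le ⟨0, ?_⟩ ⟨K, p, Ψ, Φ, h, rfl⟩
  rintro x ⟨K', p', Ψ', Φ', h', rfl⟩
  exact Finset.sum_nonneg fun k _ => mul_nonneg (h'.1 k).le (W_nonneg H hH _ _)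

/-- expansion of the cost of a coupling when `∑ H_n² = c` -/
theorem cost_eq (H : Fin N → Matrix (Fin d) (Fin d) ℂ) (c : ℝ)
    (hc : ∑ n, H n * H n = (c : ℂ) • (1 : Matrix (Fin d) (Fin d) ℂ))
    (ρ σ : Matrix (Fin d) (Fin d) ℂ) (hρ : trace ρ = 1) (hσ : trace σ = 1)
    (R : Matrix (Fin d × Fin d) (Fin d × Fin d) ℂ) (hm1 : marg₁ R = ρᵀ) (hm2 : marg₂ R = σ) :
    cost H R = c - ∑ n, (trace (R * ((H n)ᵀ ⊗ₖ H n))).re := by
  have e1 : ∀ n, trace (R * ((H n)ᵀ ⊗ₖ (1 : Matrix (Fin d) (Fin d) ℂ)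
      - (1 : Matrix (Fin d) (Fin d) ℂ) ⊗ₖ H n) ^ 2)
      = trace (ρ * (H n * H n)) - 2 * trace (R * ((H n)ᵀ ⊗ₖ H n)) + trace (σ * (H n * H n)) := by
    intro n
    rw [expand, mul_add, mul_sub, trace_add, trace_sub, trace_m1, trace_m2, hm1, hm2,
      Matrix.mul_smul, trace_smul, smul_eq_mul]
    congr 2
    rw [← transpose_mul, ← transpose_mul, trace_transpose, trace_mul_comm]
  have e2 : ∑ n, trace (ρ * (H n * H n)) = c := by
    rw [← trace_sum, ← Finset.mul_sum, hc, Matrix.mul_smul, Matrix.mul_one, trace_smul, hρ,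
      smul_eq_mul, mul_one]
  have e3 : ∑ n, trace (σ * (H n * H n)) = c := by
    rw [← trace_sum, ← Finset.mul_sum, hc, Matrix.mul_smul, Matrix.mul_one, trace_smul, hσ,
      smul_eq_mul, mul_one]
  unfold cost
  have e4 : ∑ n, (trace (R * ((H n)ᵀ ⊗ₖ (1 : Matrix (Fin d) (Fin d) ℂ)
      - (1 : Matrix (Fin d) (Fin d) ℂ) ⊗ₖ H n) ^ 2)).re
      = 2 * c - 2 * ∑ n, (trace (R * ((H n)ᵀ ⊗ₖ H n))).re := by
    rw [← Complex.re_sum, Finset.sum_congr rfl fun n _ => e1 n, Finset.sum_add_distrib,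
      Finset.sum_sub_distrib, e2, e3, ← Finset.mul_sum]
    simp only [Complex.add_re, Complex.sub_re, Complex.ofReal_re, Complex.mul_re, Complex.re_sum]
    norm_num
    ring
  rw [e4]
  ring

/-- the product coupling of two pure states -/
theorem product_coupling (u v : Fin d → ℂ) (hu : star u ⬝ᵥ u = 1) (hv : star v ⬝ᵥ v = 1) :
    IsCoupling (proj u) (proj v) ((proj u)ᵀ ⊗ₖ proj v) := by
  have t1 : trace (proj u) = 1 := by rw [proj_trace, hu]
  have t2 : trace (proj v) = 1 := by rw [proj_trace, hv]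
  refine ⟨⟨(proj_posSemidef u).transpose.kronecker (proj_posSemidef v), ?_⟩, ?_, ?_⟩
  · rw [trace_kronecker, trace_transpose, t1, t2, one_mul]
  · ext i j
    simp only [marg₁, of_apply, kroneckerMap_apply, ← Finset.mul_sum]
    have : ∑ k, proj v k k = 1 := t2
    rw [this, mul_one]
  · ext i j
    simp only [marg₂, of_apply, kroneckerMap_apply, ← Finset.sum_mul]
    have : ∑ k, (proj u)ᵀ k k = 1 := by
      have := trace_transpose (proj u)
      rw [t1] at this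
      exact this
    rw [this, one_mul]

theorem proj_transpose (u : Fin d → ℂ) : (proj u)ᵀ = proj (star u) := by
  ext i j
  simp [proj_apply, mul_comm]

/-- The cost between pure states when `∑ H_n² = c`. -/
theorem W_pure (H : Fin N → Matrix (Fin d) (Fin d) ℂ) (c : ℝ)
    (hc : ∑ n, H n * H n = (c : ℂ) • (1 : Matrix (Fin d) (Fin d) ℂ))
    (u v : Fin d → ℂ) (hu : star u ⬝ᵥ u = 1) (hv : star v ⬝ᵥ v = 1) :
    W H (proj u) (proj v)
      = c - ∑ n, (trace (proj u * H n) * trace (proj v * H n)).re := by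
  have key : ∀ R, IsCoupling (proj u) (proj v) R →
      cost H R = c - ∑ n, (trace (proj u * H n) * trace (proj v * H n)).re := by
    intro R hR
    rw [cost_eq H c hc (proj u) (proj v) (by rw [proj_trace, hu]) (by rw [proj_trace, hv]) R
      hR.2.1 hR.2.2]
    congr 1
    refine Finset.sum_congr rfl fun n _ => ?_
    have hu' : star (star u) ⬝ᵥ star u = 1 := by
      rw [star_star, dotProduct_comm]; exact hu
    rw [factor R hR.1.1 (star u) hu' (by rw [hR.2.1, proj_transpose]) _ _, hR.2.2,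
      ← proj_transpose, ← transpose_mul, trace_transpose, trace_mul_comm (H n)]
  have hset : {x | ∃ R, IsCoupling (proj u) (proj v) R ∧ x = cost H R}
      = {c - ∑ n, (trace (proj u * H n) * trace (proj v * H n)).re} := by
    ext x
    constructor
    · rintro ⟨R, hR, rfl⟩
      exact key R hR
    · intro hx
      rw [Set.mem_singleton_iff] at hx
      exact ⟨_, product_coupling u v hu hv, by rw [hx, key _ (product_coupling u v hu hv)]⟩
  unfold W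
  rw [hset, csInf_singleton]

end Pool.Agent.X244.DP
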