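import Pool.Agent.X244.DP.B

/-!
# A counterexample with two observables on `ℂ⁴`
-/

set_option autoImplicit false

open Matrix
open scoped Kronecker BigOperators ComplexOrder

namespace Pool.Agent.X244.DP

/-- `(2 Z) ⊕ X` -/
def h1 : Matrix (Fin 4) (Fin 4) ℂ := !![2,0,0,0; 0,-2,0,0; 0,0,0,1; 0,0,1,0]

/-- `X ⊕ (2 Z)` -/
def h2 : Matrix (Fin 4) (Fin 4) ℂ := !![0,1,0,0; 1,0,0,0; 0,0,2,0; 0,0,0,-2]

/-- the observables -/
def H : Fin 2 → Matrix (Fin 4) (Fin 4) ℂ := ![h1, h2]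

/-- the state `½ (1 ⊕ 0)` -/
noncomputable def ρ₀ : Matrix (Fin 4) (Fin 4) ℂ := !![1/2,0,0,0; 0,1/2,0,0; 0,0,0,0; 0,0,0,0]

/-- the state `½ (0 ⊕ 1)` -/
noncomputable def σ₀ : Matrix (Fin 4) (Fin 4) ℂ := !![0,0,0,0; 0,0,0,0; 0,0,1/2,0; 0,0,0,1/2]

/-- basis vectors -/
def e (i : Fin 4) : Fin 4 → ℂ := Pi.single i 1

theorem H_herm (n : Fin 2) : (H n).IsHermitian := by
  fin_cases n
  · ext i j
    fin_cases i <;> fin_cases j <;> simp [H, h1, conjTranspose_apply]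
  · ext i j
    fin_cases i <;> fin_cases j <;> simp [H, h2, conjTranspose_apply]

theorem H_sq : ∑ n, H n * H n = ((5 : ℝ) : ℂ) • (1 : Matrix (Fin 4) (Fin 4) ℂ) := by
  rw [Fin.sum_univ_two]
  ext i j
  fin_cases i <;> fin_cases j <;>
    simp [H, h1, h2, mul_apply, Fin.sum_univ_four, Matrix.add_apply] <;> norm_num

theorem e_unit (i : Fin 4) : star (e i) ⬝ᵥ e i = 1 := by
  simp [e, dotProduct]
  rw [Finset.sum_eq_single i]
  · simp
  · intro b _ hb
    simp [Pi.single_apply, hb]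
  · simp

theorem proj_e (i a b : Fin 4) : proj (e i) a b = if a = i ∧ b = i then 1 else 0 := by
  simp only [proj_apply, e, Pi.single_apply]
  by_cases h1 : a = i <;> by_cases h2 : b = i <;> simp [h1, h2]

theorem ρ_state : IsState ρ₀ := by
  constructor
  · have : ρ₀ = ((1 / 2 : ℝ) : ℂ) • (proj (e 0) + proj (e 1)) := by
      ext i j
      fin_cases i <;> fin_cases j <;> simp [ρ₀, proj_e]
    rw [this]
    refine ((proj_posSemidef _).add (proj_posSemidef _)).smul ?_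
    exact_mod_cast (by norm_num : (0 : ℝ) ≤ 1 / 2)
  · simp [ρ₀, trace, Fin.sum_univ_four]
    norm_num

theorem σ_state : IsState σ₀ := by
  constructor
  · have : σ₀ = ((1 / 2 : ℝ) : ℂ) • (proj (e 2) + proj (e 3)) := by
      ext i j
      fin_cases i <;> fin_cases j <;> simp [σ₀, proj_e]
    rw [this]
    refine ((proj_posSemidef _).add (proj_posSemidef _)).smul ?_
    exact_mod_cast (by norm_num : (0 : ℝ) ≤ 1 / 2)
  · simp [σ₀, trace, Fin.sum_univ_four]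
    norm_num

/-- decompositions along basis vectors -/
theorem decomp (ρ σ : Matrix (Fin 4) (Fin 4) ℂ) (a b a' b' : Fin 4)
    (hρ : ρ = ((1 / 2 : ℝ) : ℂ) • proj (e a) + ((1 / 2 : ℝ) : ℂ) • proj (e b))
    (hσ : σ = ((1 / 2 : ℝ) : ℂ) • proj (e a') + ((1 / 2 : ℝ) : ℂ) • proj (e b')) :
    IsDecomp ρ σ (K := 2) (fun _ => 1 / 2) ![e a, e b] ![e a', e b'] := by
  refine ⟨fun _ => by norm_num, by simp, ?_, ?_, ?_, ?_⟩
  · intro k
    fin_cases k
    · exact e_unit a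
    · exact e_unit b
  · intro k
    fin_cases k
    · exact e_unit a'
    · exact e_unit b'
  · rw [Fin.sum_univ_two]
    exact hρ.symm
  · rw [Fin.sum_univ_two]
    exact hσ.symm

theorem ρ_eq : ρ₀ = ((1 / 2 : ℝ) : ℂ) • proj (e 0) + ((1 / 2 : ℝ) : ℂ) • proj (e 1) := by
  ext i j
  fin_cases i <;> fin_cases j <;> simp [ρ₀, proj_e]

theorem σ_eq : σ₀ = ((1 / 2 : ℝ) : ℂ) • proj (e 2) + ((1 / 2 : ℝ) : ℂ) • proj (e 3) := by
  ext i j
  fin_cases i <;> fin_cases j <;> simp [σ₀, proj_e]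

theorem trace_e (i : Fin 4) (A : Matrix (Fin 4) (Fin 4) ℂ) : trace (proj (e i) * A) = A i i := by
  simp only [trace, diag_apply, mul_apply, proj_e, ite_mul, one_mul, zero_mul]
  rw [Finset.sum_eq_single i]
  · rw [Finset.sum_eq_single i]
    · simp
    · intro b _ hb
      simp [hb]
    · simp
  · intro b _ hb
    simp [hb]
  · simp

theorem W_e (i : Fin 4) : W H (proj (e i)) (proj (e i)) = 1 := by
  rw [W_pure H 5 H_sq (e i) (e i) (e_unit i) (e_unit i), Fin.sum_univ_two]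
  simp only [trace_e]
  fin_cases i <;> simp [H, h1, h2] <;> norm_num

theorem WSep_ρ : WSep H ρ₀ ρ₀ ≤ 1 := by
  refine (WSep_le H H_herm (decomp ρ₀ ρ₀ 0 1 0 1 ρ_eq ρ_eq)).trans (le_of_eq ?_)
  rw [Fin.sum_univ_two]
  simp [W_e]
  norm_num

theorem WSep_σ : WSep H σ₀ σ₀ ≤ 1 := by
  refine (WSep_le H H_herm (decomp σ₀ σ₀ 2 3 2 3 σ_eq σ_eq)).trans (le_of_eq ?_)
  rw [Fin.sum_univ_two]
  simp [W_e]
  norm_num

/-- Bloch vector inequality -/
theorem bloch (z m z' m' : ℝ) (h : z ^ 2 + m ^ 2 ≤ 1) (h' : z' ^ 2 + m' ^ 2 ≤ 1) :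
    2 * z * m' + m * (2 * z') ≤ 2 := by
  nlinarith [sq_nonneg (z - m'), sq_nonneg (m - z')]

/-- a pure state in the support of `ρ₀` -/
theorem tr_left (u : Fin 4 → ℂ) (hu : star u ⬝ᵥ u = 1) (h2' : u 2 = 0) (h3' : u 3 = 0) :
    ∃ z m : ℝ, z ^ 2 + m ^ 2 ≤ 1 ∧ trace (proj u * h1) = ((2 * z : ℝ) : ℂ) ∧
      trace (proj u * h2) = (m : ℂ) := by
  have hn : (u 0).re * (u 0).re + (u 0).im * (u 0).im
      + ((u 1).re * (u 1).re + (u 1).im * (u 1).im) = 1 := by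
    have := congrArg Complex.re hu
    simp [dotProduct, Fin.sum_univ_four, h2', h3', Complex.mul_re] at this
    nlinarith [this]
  obtain ⟨z, hz⟩ : ∃ z : ℝ, z = (u 0).re * (u 0).re + (u 0).im * (u 0).im
      - ((u 1).re * (u 1).re + (u 1).im * (u 1).im) := ⟨_, rfl⟩
  obtain ⟨m, hm⟩ : ∃ m : ℝ, m = 2 * ((u 0).re * (u 1).re + (u 0).im * (u 1).im) := ⟨_, rfl⟩
  refine ⟨z, m, ?_, ?_, ?_⟩
  · rw [hz, hm]
    nlinarith [sq_nonneg ((u 0).re * (u 1).im - (u 0).im * (u 1).re)]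
  · simp only [trace, diag_apply, mul_apply, proj_apply, Fin.sum_univ_four, h2', h3']
    apply Complex.ext
    · rw [Complex.ofReal_re, hz]
      simp [h1, Complex.mul_re, Complex.mul_im]
      ring
    · rw [Complex.ofReal_im]
      simp [h1, Complex.mul_re, Complex.mul_im]
      ring
  · simp only [trace, diag_apply, mul_apply, proj_apply, Fin.sum_univ_four, h2', h3']
    apply Complex.ext
    · rw [Complex.ofReal_re, hm]
      simp [h2, Complex.mul_re, Complex.mul_im]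
      ring
    · rw [Complex.ofReal_im]
      simp [h2, Complex.mul_re, Complex.mul_im]
      ring

/-- a pure state in the support of `σ₀` -/
theorem tr_right (u : Fin 4 → ℂ) (hu : star u ⬝ᵥ u = 1) (h0' : u 0 = 0) (h1' : u 1 = 0) :
    ∃ z m : ℝ, z ^ 2 + m ^ 2 ≤ 1 ∧ trace (proj u * h1) = (m : ℂ) ∧
      trace (proj u * h2) = ((2 * z : ℝ) : ℂ) := by
  have hn : (u 2).re * (u 2).re + (u 2).im * (u 2).im
      + ((u 3).re * (u 3).re + (u 3).im * (u 3).im) = 1 := by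
    have := congrArg Complex.re hu
    simp [dotProduct, Fin.sum_univ_four, h0', h1', Complex.mul_re] at this
    nlinarith [this]
  obtain ⟨z, hz⟩ : ∃ z : ℝ, z = (u 2).re * (u 2).re + (u 2).im * (u 2).im
      - ((u 3).re * (u 3).re + (u 3).im * (u 3).im) := ⟨_, rfl⟩
  obtain ⟨m, hm⟩ : ∃ m : ℝ, m = 2 * ((u 2).re * (u 3).re + (u 2).im * (u 3).im) := ⟨_, rfl⟩
  refine ⟨z, m, ?_, ?_, ?_⟩
  · rw [hz, hm]
    nlinarith [sq_nonneg ((u 2).re * (u 3).im - (u 2).im * (u 3).re)]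
  · simp only [trace, diag_apply, mul_apply, proj_apply, Fin.sum_univ_four, h0', h1']
    apply Complex.ext
    · rw [Complex.ofReal_re, hm]
      simp [h1, Complex.mul_re, Complex.mul_im]
      ring
    · rw [Complex.ofReal_im]
      simp [h1, Complex.mul_re, Complex.mul_im]
      ring
  · simp only [trace, diag_apply, mul_apply, proj_apply, Fin.sum_univ_four, h0', h1']
    apply Complex.ext
    · rw [Complex.ofReal_re, hz]
      simp [h2, Complex.mul_re, Complex.mul_im]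
      ring
    · rw [Complex.ofReal_im]
      simp [h2, Complex.mul_re, Complex.mul_im]
      ring

/-- the vectors of a decomposition vanish where the diagonal of the state vanishes -/
theorem vanish {ρ : Matrix (Fin 4) (Fin 4) ℂ} {K : ℕ} {p : Fin K → ℝ} {Ψ : Fin K → Fin 4 → ℂ}
    (hp : ∀ k, 0 < p k) (h : ∑ k, (p k : ℂ) • proj (Ψ k) = ρ) (i : Fin 4) (hi : ρ i i = 0)
    (k : Fin K) : Ψ k i = 0 := by
  have h1 : ∑ k, p k * Complex.normSq (Ψ k i) = 0 := by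
    have := congrFun (congrFun h i) i
    rw [hi, Matrix.sum_apply] at this
    have h2 : ∀ k, ((p k : ℂ) • proj (Ψ k)) i i = ((p k * Complex.normSq (Ψ k i) : ℝ) : ℂ) := by
      intro k
      rw [Matrix.smul_apply, proj_apply, smul_eq_mul, Complex.ofReal_mul, Complex.normSq_eq_conj_mul_self,
        mul_comm (Ψ k i)]
      rfl
    rw [Finset.sum_congr rfl fun k _ => h2 k, ← Complex.ofReal_sum] at this
    exact_mod_cast this
  have h2 := (Finset.sum_eq_zero_iff_of_nonneg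
    (fun k _ => mul_nonneg (hp k).le (Complex.normSq_nonneg _))).1 h1 k (Finset.mem_univ k)
  rcases mul_eq_zero.1 h2 with h3 | h3
  · exact absurd h3 (hp k).ne'
  · exact Complex.normSq_eq_zero.1 h3

theorem three_le_WSep : 3 ≤ WSep H ρ₀ σ₀ := by
  refine le_csInf ⟨_, 2, _, _, _, decomp ρ₀ σ₀ 0 1 2 3 ρ_eq σ_eq, rfl⟩ ?_
  rintro x ⟨K, p, Ψ, Φ, ⟨hp, hsum, hΨ, hΦ, hρ, hσ⟩, rfl⟩
  have hk : ∀ k, 3 ≤ W H (proj (Ψ k)) (proj (Φ k)) := by
    intro k
    obtain ⟨z, m, hz, t1, t2⟩ := tr_left (Ψ k) (hΨ k)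
      (vanish hp hρ 2 (by simp [ρ₀]) k) (vanish hp hρ 3 (by simp [ρ₀]) k)
    obtain ⟨z', m', hz', t3, t4⟩ := tr_right (Φ k) (hΦ k)
      (vanish hp hσ 0 (by simp [σ₀]) k) (vanish hp hσ 1 (by simp [σ₀]) k)
    rw [W_pure H 5 H_sq _ _ (hΨ k) (hΦ k), Fin.sum_univ_two]
    simp only [H, Matrix.cons_val_zero, Matrix.cons_val_one, t1, t2, t3, t4]
    rw [← Complex.ofReal_mul, ← Complex.ofReal_mul, Complex.ofReal_re, Complex.ofReal_re]
    linarith [bloch z m z' m' hz hz']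
  calc (3 : ℝ) = ∑ k, p k * 3 := by rw [← Finset.sum_mul, hsum, one_mul]
    _ ≤ _ := Finset.sum_le_sum fun k _ => mul_le_mul_of_nonneg_left (hk k) (hp k).le

end Pool.Agent.X244.DP
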