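import Pool.Agent.X244.DP.C

/-!
# The entangled coupling
-/

set_option autoImplicit false

open Matrix
open scoped Kronecker BigOperators ComplexOrder

namespace Pool.Agent.X244.DP

/-- coefficients of the entangled vector -/
noncomputable def V : Matrix (Fin 4) (Fin 4) ℂ :=
  !![0,0,1/2,1/2; 0,0,1/2,-1/2; 0,0,0,0; 0,0,0,0]

/-- the entangled vector -/
noncomputable def w (x : Fin 4 × Fin 4) : ℂ := V x.1 x.2

/-- the entangled coupling -/
noncomputable def R₀ : Matrix (Fin 4 × Fin 4) (Fin 4 × Fin 4) ℂ := vecMulVec w (star w)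

theorem R₀_apply (a b c f : Fin 4) : R₀ (a, b) (c, f) = V a b * star (V c f) := rfl

theorem R₀_psd : R₀.PosSemidef := posSemidef_vecMulVec_self_star w

theorem R₀_trace : trace R₀ = 1 := by
  simp only [trace, diag_apply, Fintype.sum_prod_type, R₀_apply, Fin.sum_univ_four]
  simp [V]
  norm_num

theorem R₀_marg₁ : marg₁ R₀ = ρ₀ᵀ := by
  ext i j
  simp only [marg₁, of_apply, R₀_apply, Fin.sum_univ_four, transpose_apply]
  fin_cases i <;> fin_cases j <;> simp [V, ρ₀] <;> norm_num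

theorem R₀_marg₂ : marg₂ R₀ = σ₀ := by
  ext i j
  simp only [marg₂, of_apply, R₀_apply, Fin.sum_univ_four]
  fin_cases i <;> fin_cases j <;> simp [V, σ₀] <;> norm_num

theorem R₀_h (A B : Matrix (Fin 4) (Fin 4) ℂ) :
    trace (R₀ * (A ⊗ₖ B)) = ∑ a, ∑ b, ∑ c, ∑ f, V a b * star (V c f) * (A c a * B f b) := by
  simp only [trace, diag_apply, mul_apply, Fintype.sum_prod_type, R₀_apply, kroneckerMap_apply]

theorem R₀_h1 : trace (R₀ * (h1ᵀ ⊗ₖ h1)) = 2 := by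
  rw [R₀_h]
  simp only [Fin.sum_univ_four, transpose_apply]
  simp [V, h1]
  norm_num

theorem R₀_h2 : trace (R₀ * (h2ᵀ ⊗ₖ h2)) = 2 := by
  rw [R₀_h]
  simp only [Fin.sum_univ_four, transpose_apply]
  simp [V, h2]
  norm_num

theorem W_le_one : W H ρ₀ σ₀ ≤ 1 := by
  refine csInf_le (W_bddBelow H H_herm _ _) ⟨R₀, ⟨⟨R₀_psd, R₀_trace⟩, R₀_marg₁, R₀_marg₂⟩, ?_⟩
  rw [cost_eq H 5 H_sq ρ₀ σ₀ ρ_state.2 σ_state.2 R₀ R₀_marg₁ R₀_marg₂, Fin.sum_univ_two]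
  have a1 : (H 0) = h1 := rfl
  have a2 : (H 1) = h2 := rfl
  rw [a1, a2, R₀_h1, R₀_h2]
  norm_num

theorem Wt_le_one : Wt H ρ₀ σ₀ ≤ 1 := by
  unfold Wt
  linarith [W_le_one, W_nonneg H H_herm ρ₀ ρ₀, W_nonneg H H_herm σ₀ σ₀]

theorem two_le_WtSep : 2 ≤ WtSep H ρ₀ σ₀ := by
  unfold WtSep
  linarith [three_le_WSep, WSep_ρ, WSep_σ]

end Pool.Agent.X244.DP
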